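import Mathlib
import Pool.Agent.H.MP_c54df4_lc.Main

set_option autoImplicit false

namespace Pool.Agent.Results.MP_c54df4_lc.Counter

open Filter Pool.Agent.Lib.helper21.Tens Pool.Agent.H.MP_c54df4_lc

def fac (n : ℕ+) : ℕ+ := ⟨(n : ℕ).factorial, Nat.factorial_pos _⟩

lemma fin_Iic (x : ℕ+) : (Set.Iic x).Finite := by
  refine Set.Finite.of_finite_image (f := PNat.val) ?_ PNat.coe_injective.injOn
  refine (Set.finite_le_nat (x : ℕ)).subset ?_
  rintro _ ⟨y, hy, rfl⟩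
  exact hy

theorem result (T : Type) : ∃ (ι : Type) (W : Ultrafilter ι), Enl W T ∧ Enl W ℕ+ ∧
    ∃ F G : Ultrafilter ℕ+, TDvd F G ∧ ∃ y ∈ mu W G, ∀ x ∈ mu W F, ¬ x ∣ y := by
  obtain ⟨J, E, hE⟩ := exists_E T
  let D := hyperfilter ℕ+
  let e : ℕ+ × ℕ+ ≃ ℕ+ := Denumerable.equiv₂ _ _
  refine ⟨ℕ+ × J, tens D E, (hE D).1, (hE D).2, (tens D D).map e, D.map fac, ?_,
    ((fun x : ℕ+ × J => fac x.1) : Germ _ _), ?_, ?_⟩
  · intro A hA
    obtain ⟨a, ha⟩ := Ultrafilter.nonempty_of_mem hA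
    refine hyperfilter_le_cofinite (mem_of_superset (fin_Iic a).compl_mem_cofinite fun n hn => ?_)
    exact ⟨a, ha, PNat.dvd_iff.2 (Nat.dvd_factorial a.pos (not_le.1 (show ¬ n ≤ a from hn)).le)⟩
  · exact (mem_mu _ _ _).2 (tendsto_map.comp (tendsto_fst D E))
  · intro x hx hd
    induction x using Germ.inductionOn with | h f => ?_
    obtain ⟨g, hg, -⟩ := collapse D E _ f (fun i => Set.Iic (fac i)) (fun i => fin_Iic _)
      ((mem_mu _ _ _).1 hx) ((dvd_ev _ _ _ hd).mono fun x hx => PNat.le_of_dvd hx)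
    refine not_tens_le fin_Iic D hyperfilter_le_cofinite (fun i => e.symm (g i)) ?_
    refine Tendsto.comp (y := (tens D D).map e) ?_ hg
    intro A hA
    simpa [Set.preimage_preimage] using hA

end Pool.Agent.Results.MP_c54df4_lc.Counter
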